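import Pool.Agent.P8H70.TR.Stm

/-!
# Package EXP of project TR (by helper66): the fourth moment
-/

set_option autoImplicit false

open Complex MeasureTheory Polynomial Finset ComplexConjugate

namespace Pool.Agent.P8H66.TR

open Pool.Agent.P8H70.TR

variable (q : ℕ) [NeZero q] {k : ℕ}

/-- the exponent of the pair `x` at the place `i` -/
def ex (x : ℕ × Finset (Fin k)) (i : Fin k) : ℕ := if i ∈ x.2 then x.1 else 0

/-- one term -/
noncomputable def F (x : ℕ × Finset (Fin k)) (ω : Fin k → ZMod q) (t : ℝ) : ℂ :=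
  (∏ i, ch q ((ex x i : ZMod q) * ω i)) * cexp (((x.1 * t : ℝ) : ℂ) * I)

theorem T_eq (n d : ℕ) (J : Finset ℕ) (hJ : ∀ j ∈ J, 1 ≤ j ∧ j ≤ n) (ω : Fin k → ZMod q) (t : ℝ) :
    tp n (fun j => if j ∈ J then Psi q d (mu q j ω) else 0) t =
      ∑ x ∈ J ×ˢ powersetCard d (univ : Finset (Fin k)), F q x ω t := by
  unfold tp
  simp only [ite_mul, zero_mul]
  rw [Finset.sum_ite_mem, Finset.inter_eq_right.2 (fun j hj => by
    rw [mem_range]; have := (hJ j hj).2; omega), sum_product]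
  refine sum_congr rfl fun j _ => ?_
  unfold Psi
  rw [sum_mul]
  refine sum_congr rfl fun S _ => ?_
  unfold F
  congr 1
  rw [← Finset.univ_inter S, ← Finset.prod_ite_mem]
  refine prod_congr rfl fun i _ => ?_
  simp only [ex, Finset.univ_inter]
  split_ifs with h
  · rfl
  · simp [ch]

theorem conj_ch (x : ZMod q) : conj (ch q x) = ch q (-x) := by
  unfold ch
  rw [AddChar.map_neg_eq_conj]

theorem ch_add (x y : ZMod q) : ch q (x + y) = ch q x * ch q y := by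
  unfold ch
  rw [AddChar.map_add_eq_mul]

theorem term_eq (a b c e : ℕ × Finset (Fin k)) (ω : Fin k → ZMod q) (t : ℝ) :
    F q a ω t * F q b ω t * conj (F q c ω t * F q e ω t) =
      (∏ i, ch q (((ex a i : ZMod q) + ex b i - (ex c i + ex e i)) * ω i)) *
        cexp ((((a.1 : ℤ) + b.1 - (c.1 + e.1) : ℤ) : ℂ) * I * t) := by
  have h1 : (∏ i, ch q (((ex a i : ZMod q) + ex b i - (ex c i + ex e i)) * ω i)) =
      (∏ i, ch q ((ex a i : ZMod q) * ω i)) * (∏ i, ch q ((ex b i : ZMod q) * ω i)) *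
      ((∏ i, conj (ch q ((ex c i : ZMod q) * ω i))) * (∏ i, conj (ch q ((ex e i : ZMod q) * ω i)))) := by
    rw [← prod_mul_distrib, ← prod_mul_distrib, ← prod_mul_distrib]
    refine prod_congr rfl fun i _ => ?_
    rw [conj_ch, conj_ch, ← ch_add, ← ch_add, ← ch_add]
    congr 1
    ring
  have h2 : cexp ((((a.1 : ℤ) + b.1 - (c.1 + e.1) : ℤ) : ℂ) * I * t) =
      cexp (((a.1 * t : ℝ) : ℂ) * I) * cexp (((b.1 * t : ℝ) : ℂ) * I) *
      (conj (cexp (((c.1 * t : ℝ) : ℂ) * I)) * conj (cexp (((e.1 * t : ℝ) : ℂ) * I))) := by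
    rw [← Complex.exp_conj, ← Complex.exp_conj, ← Complex.exp_add, ← Complex.exp_add, ← Complex.exp_add]
    congr 1
    simp only [map_mul, Complex.conj_ofReal, Complex.conj_I]
    push_cast
    ring
  rw [h1, h2]
  unfold F
  simp only [map_mul, map_prod]
  ring

theorem int_exp (m : ℤ) : ∫ t in (0 : ℝ)..(2 * Real.pi), cexp ((m : ℂ) * I * t) =
    if m = 0 then 2 * Real.pi else 0 := by
  split_ifs with h
  · subst h
    simp
  · have hc : (m : ℂ) * I ≠ 0 := mul_ne_zero (by exact_mod_cast h) I_ne_zero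
    rw [integral_exp_mul_complex hc]
    have h1 : (m : ℂ) * I * ((2 * Real.pi : ℝ) : ℂ) = (m : ℂ) * (2 * Real.pi * I) := by
      push_cast
      ring
    rw [h1, Complex.exp_int_mul_two_pi_mul_I]
    simp

theorem sum_ch (y : ZMod q) : ∑ x : ZMod q, ch q (y * x) = if y = 0 then (q : ℂ) else 0 := by
  have h := AddChar.sum_mulShift y (ZMod.isPrimitive_stdAddChar q)
  unfold ch
  simp only [mul_comm y]
  rw [h, ZMod.card]
  simp

theorem sum_prod (M : Fin k → ZMod q) : ∑ ω : Fin k → ZMod q, ∏ i, ch q (M i * ω i) =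
    if ∀ i, M i = 0 then (q : ℂ) ^ k else 0 := by
  have h1 : ∑ ω : Fin k → ZMod q, ∏ i, ch q (M i * ω i) = ∏ i, ∑ x : ZMod q, ch q (M i * x) := by
    rw [Finset.prod_univ_sum, Fintype.piFinset_univ]
  rw [h1]
  simp only [sum_ch]
  split_ifs with h
  · simp [h]
  · push Not at h
    obtain ⟨i, hi⟩ := h
    exact prod_eq_zero (mem_univ i) (if_neg hi)

theorem ex_le {n : ℕ} {x : ℕ × Finset (Fin k)} (hx : x.1 ≤ n) (i : Fin k) : ex x i ≤ n := by
  unfold ex
  split_ifs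
  · exact hx
  · exact Nat.zero_le _

theorem four (z : ℂ) : ((‖z‖ ^ 4 : ℝ) : ℂ) = z * z * conj (z * z) := by
  rw [Complex.mul_conj, Complex.normSq_eq_norm_sq, norm_mul]
  push_cast
  ring

theorem exp4 : S_EXP := by
  intro hC q _ n k d J hq hJ
  set P := J ×ˢ powersetCard d (univ : Finset (Fin k)) with hP
  have hc := hC n k d J hJ
  rw [← hP] at hc
  set Q := (((P ×ˢ P) ×ˢ (P ×ˢ P)).filter
      (fun x => x.1.1.1 + x.1.2.1 = x.2.1.1 + x.2.2.1 ∧ ∀ i : Fin k,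
        (if i ∈ x.1.1.2 then x.1.1.1 else 0) + (if i ∈ x.1.2.2 then x.1.2.1 else 0) =
        (if i ∈ x.2.1.2 then x.2.1.1 else 0) + (if i ∈ x.2.2.2 then x.2.2.1 else 0))) with hQ
  have key : ((∑ ω : Fin k → ZMod q, ∫ t in (0 : ℝ)..(2 * Real.pi),
      ‖tp n (fun j => if j ∈ J then Psi q d (mu q j ω) else 0) t‖ ^ 4 : ℝ) : ℂ) =
      (Q.card : ℂ) * ((q : ℂ) ^ k * (2 * Real.pi)) := by
    have h1 : ∀ ω : Fin k → ZMod q, ((∫ t in (0 : ℝ)..(2 * Real.pi),
        ‖tp n (fun j => if j ∈ J then Psi q d (mu q j ω) else 0) t‖ ^ 4 : ℝ) : ℂ) =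
        ∑ y ∈ (P ×ˢ P) ×ˢ (P ×ˢ P),
          (∏ i, ch q (((ex y.1.1 i : ZMod q) + ex y.1.2 i - (ex y.2.1 i + ex y.2.2 i)) * ω i)) *
          (if (y.1.1.1 : ℤ) + y.1.2.1 - (y.2.1.1 + y.2.2.1) = 0 then (2 * Real.pi : ℂ) else 0) := by
      intro ω
      rw [← intervalIntegral.integral_ofReal]
      have h2 : ∀ t : ℝ, ((‖tp n (fun j => if j ∈ J then Psi q d (mu q j ω) else 0) t‖ ^ 4 : ℝ) : ℂ) =
          ∑ y ∈ (P ×ˢ P) ×ˢ (P ×ˢ P),
            (∏ i, ch q (((ex y.1.1 i : ZMod q) + ex y.1.2 i - (ex y.2.1 i + ex y.2.2 i)) * ω i)) *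
            cexp ((((y.1.1.1 : ℤ) + y.1.2.1 - (y.2.1.1 + y.2.2.1) : ℤ) : ℂ) * I * t) := by
        intro t
        rw [four, T_eq q n d J hJ, ← hP, sum_mul_sum, ← sum_product', map_sum, sum_mul_sum, ← sum_product']
        refine sum_congr rfl fun y _ => ?_
        exact term_eq q _ _ _ _ ω t
      simp only [h2]
      rw [intervalIntegral.integral_finsetSum]
      · refine sum_congr rfl fun y _ => ?_
        rw [intervalIntegral.integral_const_mul, int_exp]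
        split_ifs <;> simp
      · intro y _
        apply Continuous.intervalIntegrable
        fun_prop
    rw [Complex.ofReal_sum, sum_congr rfl fun ω _ => h1 ω, sum_comm]
    have h3 : ∀ y ∈ (P ×ˢ P) ×ˢ (P ×ˢ P), (∑ ω : Fin k → ZMod q,
        (∏ i, ch q (((ex y.1.1 i : ZMod q) + ex y.1.2 i - (ex y.2.1 i + ex y.2.2 i)) * ω i)) *
          (if (y.1.1.1 : ℤ) + y.1.2.1 - (y.2.1.1 + y.2.2.1) = 0 then (2 * Real.pi : ℂ) else 0)) =
        if (y.1.1.1 + y.1.2.1 = y.2.1.1 + y.2.2.1 ∧ ∀ i : Fin k,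
        (if i ∈ y.1.1.2 then y.1.1.1 else 0) + (if i ∈ y.1.2.2 then y.1.2.1 else 0) =
        (if i ∈ y.2.1.2 then y.2.1.1 else 0) + (if i ∈ y.2.2.2 then y.2.2.1 else 0)) then
          ((q : ℂ) ^ k * (2 * Real.pi)) else 0 := by
      intro y hy
      obtain ⟨hy1, hy2⟩ := mem_product.1 hy
      obtain ⟨ha, hb⟩ := mem_product.1 hy1
      obtain ⟨hc', he⟩ := mem_product.1 hy2
      rw [hP, mem_product] at ha hb hc' he
      have ha' := (hJ _ ha.1).2
      have hb' := (hJ _ hb.1).2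
      have hc'' := (hJ _ hc'.1).2
      have he' := (hJ _ he.1).2
      rw [← sum_mul, sum_prod]
      have e1 : (∀ i, ((ex y.1.1 i : ZMod q) + ex y.1.2 i - (ex y.2.1 i + ex y.2.2 i)) = 0) ↔
          ∀ i : Fin k, (if i ∈ y.1.1.2 then y.1.1.1 else 0) + (if i ∈ y.1.2.2 then y.1.2.1 else 0) =
        (if i ∈ y.2.1.2 then y.2.1.1 else 0) + (if i ∈ y.2.2.2 then y.2.2.1 else 0) := by
        refine forall_congr' fun i => ?_
        rw [sub_eq_zero]
        have a1 := ex_le ha' i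
        have a2 := ex_le hb' i
        have a3 := ex_le hc'' i
        have a4 := ex_le he' i
        constructor
        · intro h
          have h5 : (((ex y.1.1 i + ex y.1.2 i : ℕ)) : ZMod q) = ((ex y.2.1 i + ex y.2.2 i : ℕ) : ZMod q) := by
            push_cast
            exact h
          rw [ZMod.natCast_eq_natCast_iff'] at h5
          rw [Nat.mod_eq_of_lt (by omega), Nat.mod_eq_of_lt (by omega)] at h5
          exact h5
        · intro h
          have h5 : ex y.1.1 i + ex y.1.2 i = ex y.2.1 i + ex y.2.2 i := h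
          exact_mod_cast congrArg (Nat.cast : ℕ → ZMod q) h5
      have e2 : ((y.1.1.1 : ℤ) + y.1.2.1 - (y.2.1.1 + y.2.2.1) = 0) ↔
          y.1.1.1 + y.1.2.1 = y.2.1.1 + y.2.2.1 := by omega
      simp only [e1, e2]
      by_cases c1 : y.1.1.1 + y.1.2.1 = y.2.1.1 + y.2.2.1
      · by_cases c2 : ∀ i : Fin k, (if i ∈ y.1.1.2 then y.1.1.1 else 0) + (if i ∈ y.1.2.2 then y.1.2.1 else 0) =
          (if i ∈ y.2.1.2 then y.2.1.1 else 0) + (if i ∈ y.2.2.2 then y.2.2.1 else 0)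
        · rw [if_pos c2, if_pos c1, if_pos ⟨c1, c2⟩]
        · have hn : ¬ (y.1.1.1 + y.1.2.1 = y.2.1.1 + y.2.2.1 ∧ ∀ i : Fin k,
              (if i ∈ y.1.1.2 then y.1.1.1 else 0) + (if i ∈ y.1.2.2 then y.1.2.1 else 0) =
              (if i ∈ y.2.1.2 then y.2.1.1 else 0) + (if i ∈ y.2.2.2 then y.2.2.1 else 0)) := fun h => c2 h.2
          rw [if_neg hn, if_neg c2, zero_mul]
      · have hn : ¬ (y.1.1.1 + y.1.2.1 = y.2.1.1 + y.2.2.1 ∧ ∀ i : Fin k,
              (if i ∈ y.1.1.2 then y.1.1.1 else 0) + (if i ∈ y.1.2.2 then y.1.2.1 else 0) =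
              (if i ∈ y.2.1.2 then y.2.1.1 else 0) + (if i ∈ y.2.2.2 then y.2.2.1 else 0)) := fun h => c1 h.1
        rw [if_neg hn, if_neg c1, mul_zero]
    rw [sum_congr rfl h3, ← sum_filter, ← hQ, sum_const, nsmul_eq_mul]
  have key2 : (∑ ω : Fin k → ZMod q, ∫ t in (0 : ℝ)..(2 * Real.pi),
      ‖tp n (fun j => if j ∈ J then Psi q d (mu q j ω) else 0) t‖ ^ 4 : ℝ) =
      (Q.card : ℝ) * ((q : ℝ) ^ k * (2 * Real.pi)) := by
    have : ((∑ ω : Fin k → ZMod q, ∫ t in (0 : ℝ)..(2 * Real.pi),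
      ‖tp n (fun j => if j ∈ J then Psi q d (mu q j ω) else 0) t‖ ^ 4 : ℝ) : ℂ) =
      (((Q.card : ℝ) * ((q : ℝ) ^ k * (2 * Real.pi)) : ℝ) : ℂ) := by
      rw [key]
      push_cast
      ring
    exact_mod_cast this
  rw [key2]
  have hc2 : (Q.card : ℝ) ≤ (n : ℝ) ^ 3 * k.choose d + 2 * ((n : ℝ) ^ 2 * (k.choose d : ℝ) ^ 2) +
      n * (k.choose d : ℝ) ^ 3 := by exact_mod_cast hc
  have hpos : 0 ≤ (q : ℝ) ^ k * (2 * Real.pi) := by positivity
  calc (Q.card : ℝ) * ((q : ℝ) ^ k * (2 * Real.pi)) = (q : ℝ) ^ k * (2 * Real.pi) * Q.card := by ring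
    _ ≤ _ := mul_le_mul_of_nonneg_left hc2 hpos

end Pool.Agent.P8H66.TR
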